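import Pool.Agent.ABS.OPUF

/-!
# MP_46b841_nt: one `φ`
-/

open NumberField IsDedekindDomain StarkP

/-- For every number field `K` and every finite `S` there are isomorphisms
`φ_F : ℚ ⊗ X_F → ℚ ⊗ U_F` (`Θ F = λ ∘ φ_F`) for all finite extensions `F` of `K` in an algebraic
closure, `φ_L` extending `φ_F` for `F ⊆ L` and commuting with `Gal(L/K)`, such that:

* if `S` has no finite place and `K ⊆ F ⊆ L`, `L/K` finite Galois: if `L/K` is as in `PPow`, or `F/K` is as
  in `GoodT` (it has minimal rank over a field `E`, for instance `F = E`, or `E = K` and the Galois group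
  is doubly transitive on the conjugates of `F`; where the degree of `E` over `K` is `4`, `6` or a prime
  number, or all nontrivial irreducible constituents of the permutation character of `E` belong to the
  class `InClsS`, or `K = ℚ` and the discriminant of `E` is squarefree or `E = ℚ(α)` with `α ^ n ∈ ℚ`, `n`
  odd the degree of `E`) and has odd degree or all nontrivial irreducible constituents of the
  permutation character of `F` occur in `ℂ ⊗ X`, then `φ(X_F)` has index `h(F) / w(F)` in the units of
  `F` modulo roots of unity (divided by `h(K) / w(K)` if `K` has one infinite place);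
* if moreover `K = ℚ`: if `L/K` is as in `PPow`, or `F` is as in `GoodT` and has odd degree or
  no CM subfield, then `φ(X_F)` has index `h(F)`;
* if `K = ℚ`, `F` is as in `GoodT` and `E` is the largest CM subfield of `F` (`E` is a CM field and
  contains all CM subfields of `F`), then the index of `φ(X_F)` is `u h(F) / (2^(r-1) h^-(E))`,
  `h^-(E) = h(E) / h(E⁺)`, where `u` (`1` or `2`, Mathlib's `indexRealUnits`) is the index of the group
  generated by the roots of unity and the units of `E⁺` in the units of `E` and `r - 1` the unit rank;
* for every finite Galois `L/K` and every character of `G = Gal(L/K)`, if `L/K` is as in `PPow` and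
  `K` has more than one place in `S`, or if all irreducible constituents of the character occur in
  `ℂ ⊗ X` and belong to the class `InClsS`: the regulator is equal to the leading coefficient of the
  Artin `L`-series if the character is rational-valued, and has the same absolute value if its real
  part is rational-valued. -/
theorem Pool.Agent.Results.MP_46b841_nt.OnePhi.result (K : Type) [Field K] [NumberField K]
    (S : Finset (HeightOneSpectrum (𝓞 K))) :
    ∃ Θ : ∀ L : IntermediateField K (AlgebraicClosure K),
      ((L → ℝ) →₀ ℂ) →ₗ[ℂ] ((L → ℝ) →₀ ℂ),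
      (∀ (F : IntermediateField K (AlgebraicClosure K)) [NumberField F],
        IsTheta K (aboveSet K F S) (Θ F)) ∧
      (∀ (F L : IntermediateField K (AlgebraicClosure K)) [NumberField F] [NumberField L]
        (h : F ≤ L), Extends (IntermediateField.inclusion h : F →+* L) (aboveSet K F S)
          (aboveSet K L S) (Θ F) (Θ L)) ∧
      (S = ∅ → ∀ (F L : IntermediateField K (AlgebraicClosure K)) [NumberField F] [NumberField L]
        [IsGalois K L] (h : F ≤ L),
        ((PPow K L ∨ (GoodT h ∧ (Odd (Module.finrank K F) ∨
            ∀ (W : Type) [AddCommGroup W] [Module ℂ W] [Module.Finite ℂ W]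
              (σ : Representation ℂ (L ≃ₐ[K] L) W), ConF h σ →
                OccursIn (aboveSet K L S) σ))) →
          unitIndex (Θ F) * (if Fintype.card (InfinitePlace K) = 1 then
            (classNumber K : ℚ) / Units.torsionOrder K else 1) =
          (classNumber F : ℚ) / Units.torsionOrder F) ∧
        (Module.finrank ℚ K = 1 →
          (PPow K L ∨ (GoodT h ∧ (Odd (Module.finrank K F) ∨
            ¬ ∃ E : IntermediateField ℚ F, IsCMField E))) →
          unitIndex (Θ F) = classNumber F) ∧
        (Module.finrank ℚ K = 1 → GoodT h →
          ∀ (E : IntermediateField K (AlgebraicClosure K)) [NumberField E] [IsCMField E], E ≤ F →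
          (∀ E' : IntermediateField K (AlgebraicClosure K), E' ≤ F → IsCMField E' → E' ≤ E) →
          unitIndex (Θ F) * classNumber E * 2 ^ Units.rank E =
            IsCMField.indexRealUnits E * classNumber (maximalRealSubfield E) *
              classNumber F)) ∧
      ∀ (L : IntermediateField K (AlgebraicClosure K)) [NumberField L] [IsGalois K L]
        (V : Type) [AddCommGroup V] [Module ℂ V] [Module.Finite ℂ V]
        (ρ : Representation ℂ (L ≃ₐ[K] L) V),
        ((1 < Fintype.card (InfinitePlace K) + S.card ∧ PPow K L) ∨
          ∀ (W : Type) [AddCommGroup W] [Module ℂ W] [Module.Finite ℂ W]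
            (σ : Representation ℂ (L ≃ₐ[K] L) W), σ.IsIrreducible → IsSub σ ρ →
            InClsS σ ∧ (OccursIn (aboveSet K L S) σ ∨
              (SplitPlace K (aboveSet K L S) ∧ ∃ g, σ g ≠ 1))) →
        ((∀ g, ∃ q : ℚ, ρ.character g = (q : ℂ)) → ∃ F : ℂ → ℂ,
          IsArtinL ρ.character S F ∧
          Reg (aboveSet K L S) ρ (Θ L) = meromorphicTrailingCoeffAt F 0) ∧
        (((∀ g, ∃ q : ℚ, (ρ.character g).re = (q : ℝ)) ∨ (∀ g, ρ g ^ 6 = 1)) →
          ∀ F : ℂ → ℂ, IsArtinL ρ.character S F →
          ‖Reg (aboveSet K L S) ρ (Θ L)‖ = ‖meromorphicTrailingCoeffAt F 0‖) := by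
  classical
  exact StarkC.ABS.mainU K S
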