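import Pool.Agent.ABS.FINF

/-!
# MP_46b841_nt: Stark's conjecture in norm

`L/K` a finite Galois extension of number fields, `K` arbitrary, `S` a finite set of primes of `K`
(the infinite places are always in `S`), `φ` (that is `Θ`) arbitrary, `χ` a character of
`Gal(L/K)`, `ℚ(χ)` the field of its values, `Tr χ` the sum of the conjugates of `χ`.  Stark's
conjecture predicts that `A_S(Tr χ, φ)` is the norm of the element `A_S(χ, φ)` of `ℚ(χ)`.

Unconditionally the Artin `L`-series of `Tr χ` has a meromorphic continuation and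
`A_S(Tr χ, φ) = N(α)` for some `α ∈ ℚ(χ)^*`, `N` the norm of `ℚ(χ)/ℚ`,

* for every irreducible character `χ ≠ 1` of a representation whose image is an `ℓ`-group, `ℓ` an
  odd prime;
* for every linear character `χ` of order `q` or `2 q`, `q` a prime power, `Tr χ ≠ χ`.

For every linear character `χ` of order at least `3` the number `A_S(Tr χ, φ)` is the norm of an
element of `E` for every subfield `E` of `ℚ(χ)` cyclic over `ℚ`.  If `[ℚ(χ) : ℚ] = 2` then every
meromorphic continuation of the Artin `L`-series of `χ` gives `|A_S(χ, φ)| = |α|`, `α ∈ ℚ(χ)^*`.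
-/

open NumberField IsDedekindDomain StarkP

theorem Pool.Agent.Results.MP_46b841_nt.StarkInNorm.result
    (K L : Type) [Field K] [NumberField K] [Field L] [NumberField L] [Algebra K L] [IsGalois K L]
    (S : Finset (HeightOneSpectrum (𝓞 K))) (Θ : ((L → ℝ) →₀ ℂ) →ₗ[ℂ] ((L → ℝ) →₀ ℂ))
    (hΘ : IsTheta K (aboveSet K L S) Θ) :
    (∀ (V : Type) [AddCommGroup V] [Module ℂ V] [Module.Finite ℂ V]
      (ρ : Representation ℂ (L ≃ₐ[K] L) V) (ℓ : ℕ), ℓ.Prime → ℓ ≠ 2 → ρ.IsIrreducible →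
      (¬ ∀ g, ρ g = 1) → HasImage ℓ ρ →
        NormIn (charField ρ.character) ρ.character S Θ ∧
        (Module.finrank ℚ (charField ρ.character) = 2 → AbsIn ρ.character S Θ)) ∧
    ∀ ψ : (L ≃ₐ[K] L) →* ℂˣ, 3 ≤ orderOf ψ →
      (∀ q : ℕ, IsPrimePow q → orderOf ψ = q ∨ orderOf ψ = 2 * q →
        NormIn (charField fun g => (ψ g : ℂ)) (fun g => (ψ g : ℂ)) S Θ) ∧
      (∀ E : IntermediateField ℚ ℂ, E ≤ charField (fun g => (ψ g : ℂ)) →
        IsCyclic (E ≃ₐ[ℚ] E) → NormIn E (fun g => (ψ g : ℂ)) S Θ) ∧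
      (Module.finrank ℚ (charField fun g => (ψ g : ℂ)) = 2 → AbsIn (fun g => (ψ g : ℂ)) S Θ) :=
  StarkC.ABS.final K L S Θ hΘ
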